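import Pool.Agent.R323.NF.V

/-!
# Preperiodic points of bounded degree
-/

set_option autoImplicit false

namespace Pool.Agent.R323.PN

open Pool.Agent.R323 Polynomial Height AdmissibleAbsValues Function IntermediateField

/-- the height of an integral vector -/
theorem ht_int (K : Type) [Field K] [NumberField K] {ι : Type} [Finite ι] [Nonempty ι]
    (x : ι → K) (hx : x ≠ 0) (hi : ∀ i, IsIntegral ℤ (x i)) {B : ℝ} (hB : 1 ≤ B)
    (hb : ∀ (v : NumberField.InfinitePlace K) i, v (x i) ≤ B) :
    mulHeight x ≤ B ^ Module.finrank ℚ K := by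
  rw [mulHeight_eq hx]
  have h1 : ((archAbsVal (K := K)).map fun v ↦ ⨆ i, v (x i)).prod ≤ B ^ Module.finrank ℚ K := by
    have h2 : ((archAbsVal (K := K)).map fun v ↦ ⨆ i, v (x i)).prod ≤
        ((archAbsVal (K := K)).map fun _ ↦ B).prod := by
      refine Multiset.prod_map_le_prod_map₀ _ _ (fun v _ => ?_) fun v hv => ?_
      · exact Real.iSup_nonneg fun i => v.nonneg _
      · have hv' : NumberField.IsInfinitePlace v := NumberField.mem_multisetInfinitePlace.1 hv
        exact ciSup_le fun i => hb ⟨v, hv'⟩ i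
    refine h2.trans (le_of_eq ?_)
    rw [Multiset.map_const', Multiset.prod_replicate]
    congr 1
    exact NumberField.totalWeight_eq_finrank K
  have h3 : ∏ᶠ v : (nonarchAbsVal : Set (AbsoluteValue K ℝ)), ⨆ i, v.val (x i) ≤ 1 := by
    have f2 : (fun v : (nonarchAbsVal : Set (AbsoluteValue K ℝ)) ↦
        ⨆ i, v.val (x i)).HasFiniteMulSupport := by
      fun_prop (disch := assumption)
    refine (finprod_le_finprod f2 (fun v => ?_) (g := fun _ => (1 : ℝ)) ?_ fun v => ?_).trans
      (le_of_eq finprod_one)
    · exact Real.iSup_nonneg fun i => v.val.nonneg _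
    · exact hasFiniteMulSupport_one
    · exact ciSup_le fun i => int_le_one (isNonarchimedean (K := K) v.val v.2) (hi i)
  have h4 : (0 : ℝ) ≤ B ^ Module.finrank ℚ K := by positivity
  calc _ ≤ B ^ Module.finrank ℚ K * 1 := by
        refine mul_le_mul h1 h3 ?_ h4
        exact finprod_nonneg fun v => Real.iSup_nonneg fun i => v.val.nonneg _
    _ = _ := mul_one _

end Pool.Agent.R323.PN
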