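import Pool.Agent.R323.PN.A

/-!
# Long orbits over the algebraic numbers
-/

set_option autoImplicit false

namespace Pool.Agent.R323.PN

open Pool.Agent.R323 Polynomial Height IntermediateField

variable {d : ℕ} (K : IntermediateField ℚ Qb) [NumberField K]

/-- the number of points with short orbits -/
theorem short_cardQ (hd : 2 ≤ d) {c : Fin 2 → Fin (d + 1) → K} {κ : ℝ} (h : Hb c κ) {i j : ℕ}
    (hij : i < j) (c' : Fin 2 → Fin (d + 1) → Qb) (hc' : ∀ i j, c' i j = (c i j : Qb))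
    (P : Finset (Fin 2 → Qb))
    (hP : ∀ z ∈ P, ∀ z' ∈ P, z ≠ z' → wg z z' ≠ 0) (h1 : ∀ z ∈ P, z 1 ≠ 0)
    (h0 : ∀ z ∈ P, wg ((ac c')^[i] z) ((ac c')^[j] z) = 0) : P.card ≤ d ^ i + d ^ j := by
  classical
  set Pn : ℕ → Fin 2 → Qb[X] := fun n => (ac (fun i j => C (c' i j)))^[n] ![X, 1] with hPn
  have hv : ∀ i, ((![X, 1] : Fin 2 → Qb[X]) i).natDegree ≤ 1 := by
    intro i
    fin_cases i <;> simp
  have hev : ∀ (t : Qb) (n : ℕ), (fun i => (Pn n i).eval t) = (ac c')^[n] ![t, 1] := by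
    intro t n
    have h2 := ac_iter_map (Polynomial.evalRingHom t) (fun i j => C (c' i j))
      (![X, 1] : Fin 2 → Qb[X]) n
    simp only [Polynomial.coe_evalRingHom, Polynomial.eval_C] at h2
    have e : (fun i => Polynomial.eval t ((![X, 1] : Fin 2 → Qb[X]) i)) = ![t, 1] := by
      funext i
      fin_cases i <;> simp
    rw [e] at h2
    exact h2
  have hz : ∀ (z : Fin 2 → Qb) (n : ℕ), z 1 ≠ 0 → (ac c')^[n] z =
      (z 1) ^ (d ^ n) • (ac c')^[n] ![z 0 / z 1, 1] := by
    intro z n hz1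
    rw [← ac_iter_smul]
    congr 1
    funext i
    fin_cases i
    · simp [mul_div_cancel₀, hz1]
    · simp
  set Φ : Qb[X] := wg (Pn i) (Pn j) with hΦ
  have hΦdeg : Φ.natDegree ≤ d ^ i + d ^ j :=
    wg_deg (fun k => ac_iter_deg c' _ hv i k) (fun k => ac_iter_deg c' _ hv j k)
  have hΦt : ∀ t : Qb, Φ.eval t = wg ((ac c')^[i] ![t, 1]) ((ac c')^[j] ![t, 1]) := by
    intro t
    rw [← hev, ← hev]
    exact wg_map (Polynomial.evalRingHom t) (Pn i) (Pn j)
  have hΦz : ∀ z : Fin 2 → Qb, z 1 ≠ 0 → wg ((ac c')^[i] z) ((ac c')^[j] z) =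
      (z 1) ^ (d ^ i) * (z 1) ^ (d ^ j) * Φ.eval (z 0 / z 1) := by
    intro z hz1
    rw [hz z i hz1, hz z j hz1, wg_smul, hΦt]
  have hΦ0 : Φ ≠ 0 := by
    intro hcon
    have hfin := NumberField.finite_setOfPred_mulHeight₁_le (K := K) κ
    have huniv : {x : K | mulHeight₁ x ≤ κ} = Set.univ := by
      ext t
      simp only [Set.mem_ofPred_eq, Set.mem_univ, iff_true]
      rw [mulHeight₁_eq_mulHeight]
      have ht : (![t, 1] : Fin 2 → K) ≠ 0 := by
        intro h
        have := congrFun h 1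
        simp at this
      refine h.pre hd ht hij ?_ 0
      have e1 : ∀ n, (fun i => algebraMap K Qb ((ac c)^[n] ![t, 1] i)) =
          (ac c')^[n] ![(t : Qb), 1] := by
        intro n
        have h2 := ac_iter_map (algebraMap K Qb) c (![t, 1] : Fin 2 → K) n
        have e2 : (fun i => algebraMap K Qb ((![t, 1] : Fin 2 → K) i)) = ![(t : Qb), 1] := by
          funext i
          fin_cases i
          · rfl
          · simp
        have e3 : (fun i j => algebraMap K Qb (c i j)) = c' := by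
          funext i j
          rw [hc']
          rfl
        rw [e2, e3] at h2
        exact h2
      have h2 := hΦt (t : Qb)
      rw [hcon, Polynomial.eval_zero, ← e1, ← e1] at h2
      have h3 := wg_map (algebraMap K Qb) ((ac c)^[i] ![t, 1]) ((ac c)^[j] ![t, 1])
      rw [← h3] at h2
      exact (map_eq_zero _).1 h2.symm
    rw [huniv] at hfin
    exact Set.infinite_univ hfin
  have hinj : Set.InjOn (fun z : Fin 2 → Qb => z 0 / z 1) (P : Set (Fin 2 → Qb)) := by
    intro z hz z' hz' he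
    by_contra hne
    apply hP z hz z' hz' hne
    simp only at he
    rw [div_eq_div_iff (h1 z hz) (h1 z' hz')] at he
    unfold wg
    linear_combination he
  calc P.card = (P.image fun z : Fin 2 → Qb => z 0 / z 1).card :=
        (Finset.card_image_of_injOn hinj).symm
    _ ≤ Φ.roots.toFinset.card := by
        refine Finset.card_le_card fun t ht => ?_
        obtain ⟨z, hz, rfl⟩ := Finset.mem_image.1 ht
        rw [Multiset.mem_toFinset, Polynomial.mem_roots hΦ0, Polynomial.IsRoot.def]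
        have h2 := hΦz z (h1 z hz)
        rw [h0 z hz] at h2
        exact (mul_eq_zero.1 h2.symm).resolve_left (mul_ne_zero (pow_ne_zero _ (h1 z hz))
          (pow_ne_zero _ (h1 z hz)))
    _ ≤ Multiset.card Φ.roots := Multiset.toFinset_card_le _
    _ ≤ Φ.natDegree := Polynomial.card_roots' _
    _ ≤ _ := hΦdeg

/-- **Points with long orbits.** -/
theorem longQ (hd : 2 ≤ d) (L : ℕ) {c : Fin 2 → Fin (d + 1) → K} {κ : ℝ} (h : Hb c κ)
    (c' : Fin 2 → Fin (d + 1) → Qb) (hc' : ∀ i j, c' i j = (c i j : Qb))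
    (P : Finset (Fin 2 → Qb)) (hP : ∀ z ∈ P, ∀ z' ∈ P, z ≠ z' → wg z z' ≠ 0)
    (hcard : (L + 1) * ((L + 1) * (2 * d ^ L)) + 1 < P.card) :
    ∃ z ∈ P, ∀ i j, i < j → j ≤ L → wg ((ac c')^[i] z) ((ac c')^[j] z) ≠ 0 := by
  classical
  by_contra hcon
  push Not at hcon
  have hcov : P ⊆ (P.filter fun z => z 1 = 0) ∪
      ((Finset.range (L + 1)).biUnion fun i => (Finset.range (L + 1)).biUnion fun j =>
        P.filter fun z => z 1 ≠ 0 ∧ i < j ∧ wg ((ac c')^[i] z) ((ac c')^[j] z) = 0) := by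
    intro z hz
    by_cases h1 : z 1 = 0
    · exact Finset.mem_union_left _ (Finset.mem_filter.2 ⟨hz, h1⟩)
    · obtain ⟨i, j, hij, hj, h⟩ := hcon z hz
      refine Finset.mem_union_right _ ?_
      rw [Finset.mem_biUnion]
      refine ⟨i, Finset.mem_range.2 (by omega), ?_⟩
      rw [Finset.mem_biUnion]
      exact ⟨j, Finset.mem_range.2 (by omega), Finset.mem_filter.2 ⟨hz, h1, hij, h⟩⟩
  have h1 : (P.filter fun z => z 1 = 0).card ≤ 1 := by
    rw [Finset.card_le_one]
    intro z hz z' hz'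
    rw [Finset.mem_filter] at hz hz'
    by_contra hne
    apply hP z hz.1 z' hz'.1 hne
    unfold wg
    rw [hz.2, hz'.2]
    ring
  have h2 : ((Finset.range (L + 1)).biUnion fun i => (Finset.range (L + 1)).biUnion fun j =>
        P.filter fun z => z 1 ≠ 0 ∧ i < j ∧ wg ((ac c')^[i] z) ((ac c')^[j] z) = 0).card ≤
      (L + 1) * ((L + 1) * (2 * d ^ L)) := by
    refine (Finset.card_biUnion_le_card_mul _ _ ((L + 1) * (2 * d ^ L)) fun i hi => ?_).trans
      (by rw [Finset.card_range])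
    refine (Finset.card_biUnion_le_card_mul _ _ (2 * d ^ L) fun j hj => ?_).trans
      (by rw [Finset.card_range])
    rw [Finset.mem_range] at hi hj
    by_cases hij : i < j
    · refine (short_cardQ K hd h hij c' hc' _
        (fun z hz z' hz' => hP z (Finset.mem_filter.1 hz).1 z' (Finset.mem_filter.1 hz').1)
        (fun z hz => (Finset.mem_filter.1 hz).2.1)
        (fun z hz => (Finset.mem_filter.1 hz).2.2.2)).trans ?_
      have e1 : d ^ i ≤ d ^ L := Nat.pow_le_pow_right (by omega) (by omega)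
      have e2 : d ^ j ≤ d ^ L := Nat.pow_le_pow_right (by omega) (by omega)
      omega
    · rw [Finset.filter_false_of_mem]
      · simp
      · intro z _ h
        exact hij h.2.1
  have h3 := (Finset.card_le_card hcov).trans (Finset.card_union_le _ _)
  omega

/-- the scaled map and the height bound -/
theorem exHb (hd : 2 ≤ d) (F : Fin 2 → Fin (d + 1) → K)
    (hF : ∀ v : Fin 2 → Qb, ac (fun i j => (F i j : Qb)) v = 0 → v = 0) (X : ℕ) (hX : 1 ≤ X)
    (hFX : mulHeight (fun p : Fin 2 × Fin (d + 1) => F p.1 p.2) ≤ X) :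
    ∃ s : K, s ≠ 0 ∧ (∀ i j, Ib (X ^ (2 * (d + 1) + 1)) ((s * F i j : K) : Qb)) ∧
      ∃ κ : ℝ, Hb (fun i j => s * F i j) κ := by
  obtain ⟨C1, A1, hC1, Hst⟩ := ht_step d (by omega)
  have b1 : 1 ≤ X ^ (2 * (d + 1) + 1) := Nat.one_le_pow _ _ hX
  have hFne : ∃ i j, F i j ≠ 0 := by
    by_contra hcon
    push Not at hcon
    have h1 := hF (fun _ => 1) (by
      funext i
      simp [ac, hcon])
    exact one_ne_zero (congrFun h1 0)
  obtain ⟨s₁, hs₁, hc₁⟩ := norm1 K hFne hFX
  have hrs : rsZ (fun i j => s₁ * F i j) ≠ 0 ∧ rsZ (rv fun i j => s₁ * F i j) ≠ 0 := by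
    refine rsZ_ne_K (by omega : 1 ≤ d) (algebraMap K Qb) fun v hv => hF v ?_
    have h1 := ac_scale (s₁ : Qb) (fun i j => (F i j : Qb)) v
    have h2 : (fun i j => algebraMap K Qb (s₁ * F i j)) = fun i j => (s₁ : Qb) * (F i j : Qb) := by
      funext i j
      rw [map_mul]
      rfl
    rw [h2, h1] at hv
    have hs' : (s₁ : Qb) ≠ 0 := by
      intro h
      exact hs₁ (by exact_mod_cast h)
    exact (smul_eq_zero.1 hv).resolve_left hs'
  refine ⟨s₁, hs₁, hc₁, (C1 * ((X ^ (2 * (d + 1) + 1) : ℕ) : ℝ) ^ A1) ^ Module.finrank ℚ K,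
    ?_, hrs.1, hrs.2, fun z hz => ?_⟩
  · refine one_le_pow₀ ?_
    have h2 : 1 ≤ C1 * (X ^ (2 * (d + 1) + 1)) ^ A1 := Nat.mul_pos hC1 (Nat.pow_pos b1)
    exact_mod_cast h2
  · exact Hst K ((X ^ (2 * (d + 1) + 1) : ℕ) : ℝ) (by exact_mod_cast b1) _
      (fun i j => (int_coe K).1 (hc₁ i j).1)
      (fun v i j => ib_place K (hc₁ i j) v) hrs.1 hrs.2 z hz (ac_ne (by omega) hrs.1 hrs.2 hz)

end Pool.Agent.R323.PN
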