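import Pool.Agent.R323.PN.B

/-!
# Few exceptional classes for points of bounded degree
-/

set_option autoImplicit false

namespace Pool.Agent.R323.PN

open Pool.Agent.R323 Polynomial Height IntermediateField

variable {d : ℕ}

/-- the hypotheses for one map -/
def HypB (d D B M X : ℕ) (K : IntermediateField ℚ Qb) [NumberField K]
    (F : Fin 2 → Fin (d + 1) → K) : Prop :=
  Module.finrank ℚ K ≤ D ∧ (∀ v : Fin 2 → Qb, ac (fun i j => (F i j : Qb)) v = 0 → v = 0) ∧
    mulHeight (fun p : Fin 2 × Fin (d + 1) => F p.1 p.2) ≤ X ∧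
    ∃ P : Finset (Fin 2 → Qb), M < P.card ∧
      (∀ z ∈ P, z ≠ 0 ∧ (∃ m n, m < n ∧ wg ((ac fun i j => (F i j : Qb))^[m] z)
          ((ac fun i j => (F i j : Qb))^[n] z) = 0) ∧
        ∃ E : IntermediateField ℚ Qb, K ≤ E ∧ FiniteDimensional ℚ E ∧
          Module.finrank ℚ E ≤ B * Module.finrank ℚ K ∧ ∀ i, z i ∈ E) ∧
      (∀ z ∈ P, ∀ z' ∈ P, z ≠ z' → wg z z' ≠ 0)

theorem itne {F' : Fin 2 → Fin (d + 1) → Qb} (hF : ∀ v : Fin 2 → Qb, ac F' v = 0 → v = 0)
    {z : Fin 2 → Qb} (hz : z ≠ 0) (n : ℕ) : (ac F')^[n] z ≠ 0 := by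
  induction n with
  | zero => exact hz
  | succ n ih =>
    rw [Function.iterate_succ_apply']
    exact fun h => ih (hF _ h)

theorem pre_iter {F' : Fin 2 → Fin (d + 1) → Qb} (hF : ∀ v : Fin 2 → Qb, ac F' v = 0 → v = 0)
    {z : Fin 2 → Qb} (hz : z ≠ 0) {m n : ℕ} (h0 : wg ((ac F')^[m] z) ((ac F')^[n] z) = 0)
    (k : ℕ) : wg ((ac F')^[m] ((ac F')^[k] z)) ((ac F')^[n] ((ac F')^[k] z)) = 0 := by
  obtain ⟨s, hs⟩ := par_field (itne hF hz m) h0
  have hs0 : s ≠ 0 := by
    rintro rfl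
    rw [zero_smul] at hs
    exact itne hF hz n hs
  obtain ⟨s', hs', he⟩ := iter_par F' hs0 hs k
  have e1 : ∀ i j, (ac F')^[i] ((ac F')^[j] z) = (ac F')^[j] ((ac F')^[i] z) := by
    intro i j
    rw [← Function.iterate_add_apply, ← Function.iterate_add_apply, add_comm]
  rw [e1 m k, e1 n k, he]
  have h1 := wg_smul 1 s' ((ac F')^[k] ((ac F')^[m] z)) ((ac F')^[k] ((ac F')^[m] z))
  rw [one_smul, wg_self, mul_zero] at h1
  exact h1

/-- one map: a field over which there are many points -/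
theorem one (d D B : ℕ) (hd : 2 ≤ d) (L X : ℕ) (hX : 1 ≤ X) (K : IntermediateField ℚ Qb)
    [NumberField K] (F : Fin 2 → Fin (d + 1) → K)
    (h : HypB d D B ((L + 1) * ((L + 1) * (2 * d ^ L)) + 1) X K F) :
    ∃ E : IntermediateField ℚ Qb, ∃ _ : NumberField E, ∃ hKE : K ≤ E,
      Hyp d (D * B) L (X ^ ((2 * (d + 1) + 1) * (D * B))) E
        (fun i j => ⟨(F i j : Qb), hKE (F i j).2⟩) := by
  classical
  obtain ⟨h1, h2, h3, P, h4, h5, h6⟩ := h
  obtain ⟨s, hs, hsb, κ, hHb⟩ := exHb K hd F h2 X hX h3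
  obtain ⟨z, hz, hlong⟩ := longQ K hd L hHb (fun i j => (s : Qb) * (F i j : Qb))
    (fun i j => by push_cast; rfl) P h6 h4
  obtain ⟨hz0, ⟨m, n, hmn, hpre⟩, E, hKE, hE, hEB, hzE⟩ := h5 z hz
  haveI : NumberField E := ⟨⟩
  have hFE : ∀ i j, ((⟨(F i j : Qb), hKE (F i j).2⟩ : E) : Qb) = (F i j : Qb) := fun i j => rfl
  obtain ⟨FE, hFEd⟩ : ∃ FE : Fin 2 → Fin (d + 1) → E,
    FE = fun i j => ⟨(F i j : Qb), hKE (F i j).2⟩ := ⟨_, rfl⟩
  have hFEc : (fun i j => algebraMap E Qb (FE i j)) = fun i j => (F i j : Qb) := by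
    rw [hFEd]
    rfl
  have hEDB : Module.finrank ℚ E ≤ D * B := by
    refine hEB.trans ?_
    rw [mul_comm D B]
    exact Nat.mul_le_mul_left _ h1
  obtain ⟨zE, hzEd⟩ : ∃ zE : Fin 2 → E, zE = fun i => ⟨z i, hzE i⟩ := ⟨_, rfl⟩
  have hit : ∀ k, (fun i => algebraMap E Qb ((ac FE)^[k] zE i)) =
      (ac fun i j => (F i j : Qb))^[k] z := by
    intro k
    have e1 := ac_iter_map (algebraMap E Qb) FE zE k
    have e2 : (fun i => algebraMap E Qb (zE i)) = z := by
      rw [hzEd]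
      rfl
    rw [e2, hFEc] at e1
    exact e1
  have hwg : ∀ x y : Fin 2 → E, wg (fun i => algebraMap E Qb (x i)) (fun i => algebraMap E Qb (y i)) =
      algebraMap E Qb (wg x y) := fun x y => (wg_map (algebraMap E Qb) x y).symm
  have hsQ : (s : Qb) ≠ 0 := by
    intro h
    exact hs (by exact_mod_cast h)
  have hlong' : ∀ i j, i < j → j ≤ L → wg ((ac FE)^[i] zE) ((ac FE)^[j] zE) ≠ 0 := by
    intro i j hij hj h0
    apply hlong i j hij hj
    obtain ⟨u, -, hu⟩ := iter_scale hsQ (fun i j => (F i j : Qb)) z i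
    obtain ⟨u', -, hu'⟩ := iter_scale hsQ (fun i j => (F i j : Qb)) z j
    rw [hu, hu', wg_smul, ← hit, ← hit, hwg, h0, map_zero, mul_zero]
  refine ⟨E, inferInstance, hKE, ?_⟩
  rw [← hFEd]
  refine ⟨hEDB, ?_, ?_, ?_⟩
  · intro v hv
    apply h2 v
    rw [← hFEc]
    exact hv
  · -- the height
    have hsE : (⟨(s : Qb), hKE s.2⟩ : E) ≠ 0 := by
      intro h
      apply hsQ
      exact congrArg (fun w : E => (w : Qb)) h
    have e1 := mulHeight_smul_eq_mulHeight (fun p : Fin 2 × Fin (d + 1) => FE p.1 p.2) hsE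
    rw [← e1]
    have hne : ((⟨(s : Qb), hKE s.2⟩ : E) • fun p : Fin 2 × Fin (d + 1) => FE p.1 p.2) ≠ 0 := by
      intro h
      have hF0 : ∀ i j, (F i j : Qb) = 0 := by
        intro i j
        have h7 := congrFun h (i, j)
        have h8 := (smul_eq_zero.1 h7).resolve_left hsE
        have h9 := congrArg (algebraMap E Qb) h8
        rw [map_zero] at h9
        exact (congrFun (congrFun hFEc i) j).symm.trans h9
      have h10 := h2 (fun _ => 1) (by
        funext i
        simp [ac, hF0])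
      exact one_ne_zero (congrFun h10 0)
    have hIb : ∀ p : Fin 2 × Fin (d + 1), Ib (X ^ (2 * (d + 1) + 1))
        ((((⟨(s : Qb), hKE s.2⟩ : E) • fun p : Fin 2 × Fin (d + 1) => FE p.1 p.2) p : E) : Qb) := by
      intro p
      have h7 : ((((⟨(s : Qb), hKE s.2⟩ : E) • fun p : Fin 2 × Fin (d + 1) => FE p.1 p.2) p : E) :
          Qb) = ((s * F p.1 p.2 : K) : Qb) := by
        rw [hFEd]
        rfl
      rw [h7]
      exact hsb p.1 p.2
    have hB1 : (1 : ℝ) ≤ ((X ^ (2 * (d + 1) + 1) : ℕ) : ℝ) := by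
      exact_mod_cast Nat.one_le_pow _ _ hX
    refine (ht_int E _ hne (fun p => (int_coe E).1 (hIb p).1) hB1
      (fun v p => ib_place E (hIb p) v)).trans ?_
    refine (pow_le_pow_right₀ hB1 hEDB).trans (le_of_eq ?_)
    push_cast
    rw [← pow_mul]
  · -- the points
    have hinj : Function.Injective fun k : Fin (L + 1) => (ac FE)^[(k : ℕ)] zE := by
      intro k l hkl
      by_contra hne
      simp only at hkl
      rcases lt_trichotomy (k : ℕ) (l : ℕ) with h7 | h7 | h7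
      · apply hlong' k l h7 (by have := l.2; omega)
        rw [hkl, wg_self]
      · exact hne (Fin.ext h7)
      · apply hlong' l k h7 (by have := k.2; omega)
        rw [hkl, wg_self]
    refine ⟨Finset.univ.image fun k : Fin (L + 1) => (ac FE)^[(k : ℕ)] zE, ?_, ?_, ?_⟩
    · rw [Finset.card_image_of_injective _ hinj, Finset.card_univ, Fintype.card_fin]
      omega
    · intro w hw
      obtain ⟨k, -, rfl⟩ := Finset.mem_image.1 hw
      refine ⟨?_, m, n, hmn, ?_⟩
      · intro h0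
        apply itne h2 hz0 k
        rw [← hit, h0]
        funext i
        simp
      · have h7 := pre_iter h2 hz0 hpre k
        have h8 : ∀ a b : ℕ, (ac FE)^[a] ((ac FE)^[b] zE) = (ac FE)^[a + b] zE := fun a b =>
          (Function.iterate_add_apply _ a b zE).symm
        have h9 : ∀ a b : ℕ, (ac fun i j => (F i j : Qb))^[a] ((ac fun i j => (F i j : Qb))^[b] z) =
            (ac fun i j => (F i j : Qb))^[a + b] z := fun a b =>
          (Function.iterate_add_apply _ a b z).symm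
        rw [h9, h9, ← hit, ← hit, hwg] at h7
        rw [h8, h8]
        exact (map_eq_zero _).1 h7
    · intro w hw w' hw' hne
      obtain ⟨k, -, rfl⟩ := Finset.mem_image.1 hw
      obtain ⟨l, -, rfl⟩ := Finset.mem_image.1 hw'
      rcases lt_trichotomy (k : ℕ) (l : ℕ) with h7 | h7 | h7
      · exact hlong' k l h7 (by have := l.2; omega)
      · exact absurd (by rw [h7]) hne
      · intro h0
        apply hlong' l k h7 (by have := k.2; omega)
        rw [wg_comm, h0, neg_zero]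

/-- **Few exceptional classes for points of bounded degree.** -/
theorem mainB (d D B : ℕ) (hd : 2 ≤ d) (ε : ℝ) (hε : 0 < ε) : ∃ (M : ℕ) (C : ℝ), ∀ X : ℕ, 1 ≤ X →
    ∀ (ι : Type) [Fintype ι] (K : ι → IntermediateField ℚ Qb) [∀ a, NumberField (K a)]
      (F : ∀ a, Fin 2 → Fin (d + 1) → K a), (∀ a, HypB d D B M X (K a) (F a)) →
      (∀ a b, a ≠ b → ∀ E : IntermediateField ℚ Qb, FiniteDimensional ℚ E →
        Module.finrank ℚ E ≤ (D * B) ^ 2 →
        ¬ CjL E (fun i j => (F a i j : Qb)) (fun i j => (F b i j : Qb))) →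
      (Fintype.card ι : ℝ) ≤ C * (X : ℝ) ^ ε := by
  obtain ⟨e, he⟩ : ∃ e : ℕ, e = (2 * (d + 1) + 1) * (D * B) + 1 := ⟨_, rfl⟩
  have he0 : (0 : ℝ) < e := by
    rw [he]
    positivity
  obtain ⟨L, C, H⟩ := main' d (D * B) hd (ε / e) (by positivity)
  refine ⟨(L + 1) * ((L + 1) * (2 * d ^ L)) + 1, C, ?_⟩
  intro X hX ι _ K _ F hF hcj
  have hone : ∀ a, ∃ E : IntermediateField ℚ Qb, ∃ _ : NumberField E, ∃ hKE : K a ≤ E,
      Hyp d (D * B) L (X ^ ((2 * (d + 1) + 1) * (D * B))) E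
        (fun i j => ⟨(F a i j : Qb), hKE (F a i j).2⟩) :=
    fun a => one d D B hd L X hX (K a) (F a) (hF a)
  choose E hE hKE hH using hone
  have hXe : (X ^ ((2 * (d + 1) + 1) * (D * B)) : ℕ) ≤ X ^ e :=
    Nat.pow_le_pow_right hX (by omega)
  have h1 := H (X ^ e) (Nat.one_le_pow _ _ hX) ι E
    (fun a i j => ⟨(F a i j : Qb), hKE a (F a i j).2⟩) (fun a => by
      obtain ⟨g1, g2, g3, g4⟩ := hH a
      exact ⟨g1, g2, g3.trans (by exact_mod_cast hXe), g4⟩) (fun a b hab hcon => by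
      refine hcj a b hab (E a ⊔ E b) ?_ ?_ hcon
      · infer_instance
      · have g1 := (hH a).1
        have g2 := (hH b).1
        refine (IntermediateField.finrank_sup_le (E a) (E b)).trans ?_
        rw [pow_two]
        exact Nat.mul_le_mul g1 g2)
  refine h1.trans (le_of_eq ?_)
  congr 1
  push_cast
  rw [← Real.rpow_natCast, ← Real.rpow_mul (Nat.cast_nonneg _)]
  congr 1
  field_simp

end Pool.Agent.R323.PN
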