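import Pool.Agent.R323.PN.D

/-!
# Symmetric powers of rational maps
-/

set_option autoImplicit false

namespace Pool.Agent.R323.PN

open Pool.Agent.R323 IntermediateField

variable {d : ℕ}

/-- the value of a tuple of forms -/
noncomputable def aN {n : ℕ} {K : Type} [Field K] (Φ : Fin (n + 1) → MvPolynomial (Fin (n + 1)) K)
    (v : Fin (n + 1) → K) : Fin (n + 1) → K := fun j => MvPolynomial.eval v (Φ j)

section sym

variable {n : ℕ} (K : IntermediateField ℚ Qb) [NumberField K] (F' : Fin 2 → Fin (d + 1) → Qb)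
  (Φ : Fin (n + 1) → MvPolynomial (Fin (n + 1)) K)

/-- iterates -/
theorem iter_sym (hΦ : ∀ (p : Fin n → Fin 2 → Qb) (j : Fin (n + 1)),
      MvPolynomial.aeval (pt p) (Φ j) = pt (fun i => ac F' (p i)) j)
    {v : Fin (n + 1) → K} {p : Fin n → Fin 2 → Qb} (hp : pt p = fun j => (v j : Qb)) (k : ℕ) :
    (fun j => (((aN Φ)^[k] v j : K) : Qb)) = pt fun i => (ac F')^[k] (p i) := by
  induction k with
  | zero => exact hp.symm
  | succ k ih =>
    funext j
    rw [Function.iterate_succ_apply']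
    have h1 := hΦ (fun i => (ac F')^[k] (p i)) j
    rw [← ih] at h1
    have h2 := MvPolynomial.aeval_algebraMap_apply (A := K) Qb ((aN Φ)^[k] v) (Φ j)
    have h3 : (algebraMap K Qb ∘ ((aN Φ)^[k] v)) = fun j => (((aN Φ)^[k] v j : K) : Qb) := rfl
    rw [← h3] at h1
    have h4 : (((aN Φ) ((aN Φ)^[k] v) j : K) : Qb) =
        algebraMap K Qb (MvPolynomial.aeval ((aN Φ)^[k] v) (Φ j)) := by
      rw [MvPolynomial.aeval_eq_eval]
      rfl
    rw [h4]
    have h5 : algebraMap K Qb (MvPolynomial.aeval ((aN Φ)^[k] v) (Φ j)) =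
        MvPolynomial.aeval (algebraMap K Qb ∘ ((aN Φ)^[k] v)) (Φ j) := h2.symm
    rw [h5, h1]
    congr 1
    funext i
    rw [Function.iterate_succ_apply']

/-- parallel vectors -/
theorem wg_trans {x y z : Fin 2 → Qb} (hy : y ≠ 0) (h1 : wg x y = 0) (h2 : wg y z = 0) :
    wg x z = 0 := by
  obtain ⟨s, rfl⟩ := par_field hy h2
  have h3 := wg_smul 1 s x y
  rw [one_smul, h1, mul_zero] at h3
  exact h3

theorem wg_iter {x y : Fin 2 → Qb} (hx : x ≠ 0) (h : wg x y = 0) (k : ℕ) :
    wg ((ac F')^[k] x) ((ac F')^[k] y) = 0 := by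
  obtain ⟨s, rfl⟩ := par_field hx h
  rw [ac_iter_smul]
  have h3 := wg_smul 1 (s ^ d ^ k) ((ac F')^[k] x) ((ac F')^[k] x)
  rw [one_smul, wg_self, mul_zero] at h3
  exact h3

/-- the zeros of a preperiodic form are preperiodic -/
theorem pre_pts (hF : ∀ v : Fin 2 → Qb, ac F' v = 0 → v = 0)
    (hΦ : ∀ (p : Fin n → Fin 2 → Qb) (j : Fin (n + 1)),
      MvPolynomial.aeval (pt p) (Φ j) = pt (fun i => ac F' (p i)) j)
    {v : Fin (n + 1) → K} {p : Fin n → Fin 2 → Qb} (hp : pt p = fun j => (v j : Qb))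
    (hp0 : ∀ i, p i ≠ 0) {m k : ℕ} (hmk : m < k) {c : K} (hc : c ≠ 0)
    (h : (aN Φ)^[k] v = c • (aN Φ)^[m] v) (i : Fin n) :
    ∃ a b, a < b ∧ wg ((ac F')^[a] (p i)) ((ac F')^[b] (p i)) = 0 := by
  have hcQ : (c : Qb) ≠ 0 := by
    intro h
    exact hc (by exact_mod_cast h)
  have h1 : pt (fun i => (ac F')^[k] (p i)) = (c : Qb) • pt (fun i => (ac F')^[m] (p i)) := by
    rw [← iter_sym K F' Φ hΦ hp k, ← iter_sym K F' Φ hΦ hp m, h]
    funext j
    simp
  have h2 : ∀ i, ∃ j, wg ((ac F')^[m] (p j)) ((ac F')^[k] (p i)) = 0 := zero_of_prop h1 hcQ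
  obtain ⟨δ, hδ, hkδ⟩ : ∃ δ, 0 < δ ∧ k = m + δ := ⟨k - m, by omega, by omega⟩
  have hit : ∀ a b x, (ac F')^[a] ((ac F')^[b] x) = (ac F')^[a + b] x := fun a b x =>
    (Function.iterate_add_apply _ a b x).symm
  have h3 : ∀ t : ℕ, ∀ i, ∃ j, wg ((ac F')^[m] (p j)) ((ac F')^[m + t * δ] (p i)) = 0 := by
    intro t
    induction t with
    | zero =>
      intro i
      refine ⟨i, ?_⟩
      rw [zero_mul, add_zero, wg_self]
    | succ t ih =>
      intro i
      obtain ⟨j, hj⟩ := ih i
      obtain ⟨j', hj'⟩ := h2 j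
      refine ⟨j', ?_⟩
      have h4 := wg_iter F' (itne hF (hp0 j) m) hj δ
      rw [hit, hit] at h4
      have e1 : δ + m = k := by omega
      have e2 : δ + (m + t * δ) = m + (t + 1) * δ := by ring
      rw [e1, e2] at h4
      exact wg_trans (itne hF (hp0 j) k) hj' h4
  choose J hJ using fun t => h3 t i
  obtain ⟨t, t', htt, he⟩ := Finite.exists_ne_map_eq_of_infinite J
  have key : ∀ t t', t < t' → J t = J t' → ∃ a b, a < b ∧
      wg ((ac F')^[a] (p i)) ((ac F')^[b] (p i)) = 0 := by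
    intro t t' h he
    refine ⟨m + t * δ, m + t' * δ, ?_, ?_⟩
    · have := Nat.mul_lt_mul_of_pos_right h hδ
      omega
    · have h5 := hJ t
      have h6 := hJ t'
      rw [← he] at h6
      rw [wg_comm, neg_eq_zero] at h5
      exact wg_trans (itne hF (hp0 _) m) h5 h6
  rcases lt_or_gt_of_ne htt with h | h
  · exact key t t' h he
  · exact key t' t h he.symm

/-- the degree of the zeros of a form -/
theorem deg_pts (hn : 1 ≤ n) {v : Fin (n + 1) → K} (hv : v ≠ 0) {p : Fin n → Fin 2 → Qb}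
    (hp : pt p = fun j => (v j : Qb)) (hp0 : ∀ i, p i ≠ 0) (i : Fin n) :
    ∃ E : IntermediateField ℚ Qb, K ≤ E ∧ FiniteDimensional ℚ E ∧
      Module.finrank ℚ E ≤ n * Module.finrank ℚ K ∧ ∃ w : Fin 2 → Qb, (∀ l, w l ∈ E) ∧
      ∃ c : Qb, c ≠ 0 ∧ p i = c • w := by
  classical
  by_cases h1 : p i 1 = 0
  · refine ⟨K, le_rfl, inferInstance, Nat.le_mul_of_pos_left _ hn, ![1, 0], ?_, p i 0, ?_, ?_⟩
    · intro l
      fin_cases l
      · exact one_mem _
      · exact zero_mem _
    · intro h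
      apply hp0 i
      funext l
      fin_cases l
      · exact h
      · exact h1
    · funext l
      fin_cases l
      · simp
      · simpa using h1
  · obtain ⟨x, hx⟩ : ∃ x, x = p i 0 / p i 1 := ⟨_, rfl⟩
    obtain ⟨g, hg⟩ : ∃ g : Polynomial K, g = ∑ j : Fin (n + 1), Polynomial.C (v j) *
      Polynomial.X ^ (j : ℕ) := ⟨_, rfl⟩
    have hgd : g.natDegree ≤ n := by
      rw [hg]
      refine Polynomial.natDegree_sum_le_of_forall_le _ _ fun j _ => ?_
      refine (Polynomial.natDegree_C_mul_X_pow_le _ _).trans ?_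
      have := j.2
      omega
    have hg0 : g ≠ 0 := by
      intro h
      apply hv
      funext j
      have h2 : g.coeff (j : ℕ) = v j := by
        rw [hg, Polynomial.finset_sum_coeff, Finset.sum_eq_single j]
        · rw [Polynomial.coeff_C_mul, Polynomial.coeff_X_pow_self, mul_one]
        · intro i _ hij
          rw [Polynomial.coeff_C_mul, Polynomial.coeff_X_pow, if_neg (fun h => hij (Fin.ext h.symm)),
            mul_zero]
        · intro h
          exact absurd (Finset.mem_univ _) h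
      rw [← h2, h, Polynomial.coeff_zero]
      rfl
    have hroot : Polynomial.aeval x g = 0 := by
      have h2 := hf_pt p (p i 0) (p i 1)
      have h3 : ∏ l, (p l 1 * p i 0 - p l 0 * p i 1) = 0 := by
        refine Finset.prod_eq_zero (Finset.mem_univ i) ?_
        ring
      rw [h3, hp] at h2
      have h4 : (p i 1) ^ n * Polynomial.aeval x g = 0 := by
        rw [← h2, hg, map_sum, Finset.mul_sum]
        unfold hf
        refine Finset.sum_congr rfl fun j _ => ?_
        have hj : (j : ℕ) ≤ n := by have := j.2; omega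
        have e1 : (p i 1) ^ n = (p i 1) ^ (j : ℕ) * (p i 1) ^ (n - (j : ℕ)) := by
          rw [← pow_add]
          congr 1
          omega
        rw [map_mul, Polynomial.aeval_C, map_pow, Polynomial.aeval_X, hx, div_pow, e1]
        have e2 : algebraMap K Qb (v j) = (v j : Qb) := rfl
        rw [e2]
        field_simp
      exact (mul_eq_zero.1 h4).resolve_left (pow_ne_zero _ h1)
    have hint : IsIntegral K x := (isAlgebraic_iff_isIntegral.1 ⟨g, hg0, hroot⟩)
    haveI : FiniteDimensional K K⟮x⟯ := adjoin.finiteDimensional hint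
    have hfr : Module.finrank K K⟮x⟯ ≤ n := by
      rw [adjoin.finrank hint]
      exact (Polynomial.natDegree_le_of_dvd (minpoly.dvd K x hroot) hg0).trans hgd
    haveI : FiniteDimensional ℚ K⟮x⟯ := FiniteDimensional.trans ℚ K K⟮x⟯
    refine ⟨K⟮x⟯.restrictScalars ℚ, ?_, ?_, ?_, ![x, 1], ?_, p i 1, h1, ?_⟩
    · intro y hy
      exact (K⟮x⟯).algebraMap_mem ⟨y, hy⟩
    · exact this
    · have h2 : Module.finrank ℚ (K⟮x⟯.restrictScalars ℚ) = Module.finrank ℚ K⟮x⟯ := rfl
      rw [h2, ← Module.finrank_mul_finrank ℚ K K⟮x⟯, mul_comm]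
      exact Nat.mul_le_mul_right _ hfr
    · intro l
      fin_cases l
      · exact mem_adjoin_simple_self K x
      · exact one_mem _
    · funext l
      fin_cases l
      · simp [hx, mul_div_cancel₀, h1]
      · simp

end sym

end Pool.Agent.R323.PN
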