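import Pool.Agent.R323.PN.E

/-!
# Counting preperiodic points of symmetric powers
-/

set_option autoImplicit false

namespace Pool.Agent.R323.PN

open Pool.Agent.R323 IntermediateField Height

variable {d : ℕ}

/-- preperiodic points of bounded degree -/
def TT (K : IntermediateField ℚ Qb) (F' : Fin 2 → Fin (d + 1) → Qb) (B : ℕ) :
    Set (Projectivization Qb (Fin 2 → Qb)) :=
  {P | (∃ m k : ℕ, m < k ∧ ∃ c : Qb, c ≠ 0 ∧ (ac F')^[k] P.rep = c • (ac F')^[m] P.rep) ∧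
    ∃ E : IntermediateField ℚ Qb, K ≤ E ∧ FiniteDimensional ℚ E ∧
      Module.finrank ℚ E ≤ B * Module.finrank ℚ K ∧ ∃ w : Fin 2 → Qb, (∀ l, w l ∈ E) ∧
      ∃ c : Qb, c ≠ 0 ∧ P.rep = c • w}

/-- preperiodic points of a tuple of forms -/
def SS {n : ℕ} {K : Type} [Field K] (Φ : Fin (n + 1) → MvPolynomial (Fin (n + 1)) K) :
    Set (Projectivization K (Fin (n + 1) → K)) :=
  {P | ∃ m k : ℕ, m < k ∧ ∃ c : K, c ≠ 0 ∧ (aN Φ)^[k] P.rep = c • (aN Φ)^[m] P.rep}

theorem wg_of_smul {x y : Fin 2 → Qb} {c : Qb} (h : y = c • x) : wg x y = 0 := by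
  rw [h]
  have h3 := wg_smul 1 c x x
  rw [one_smul, wg_self, mul_zero] at h3
  exact h3

/-- membership -/
theorem mem_TT (K : IntermediateField ℚ Qb) {F' : Fin 2 → Fin (d + 1) → Qb} {B : ℕ}
    (hF : ∀ v : Fin 2 → Qb, ac F' v = 0 → v = 0) {z : Fin 2 → Qb} (hz : z ≠ 0)
    (h1 : ∃ a b, a < b ∧ wg ((ac F')^[a] z) ((ac F')^[b] z) = 0)
    (h2 : ∃ E : IntermediateField ℚ Qb, K ≤ E ∧ FiniteDimensional ℚ E ∧
      Module.finrank ℚ E ≤ B * Module.finrank ℚ K ∧ ∃ w : Fin 2 → Qb, (∀ l, w l ∈ E) ∧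
      ∃ c : Qb, c ≠ 0 ∧ z = c • w) : Projectivization.mk Qb z hz ∈ TT K F' B := by
  obtain ⟨P, hP⟩ : ∃ P, P = Projectivization.mk Qb z hz := ⟨_, rfl⟩
  rw [← hP]
  obtain ⟨a, ha⟩ := Projectivization.exists_smul_eq_mk_rep Qb z hz
  rw [← hP] at ha
  obtain ⟨m, k, hmk, h0⟩ := h1
  refine ⟨⟨m, k, hmk, ?_⟩, ?_⟩
  · have h3 : wg ((ac F')^[m] P.rep) ((ac F')^[k] P.rep) = 0 := by
      rw [← ha, show (a • z : Fin 2 → Qb) = (a : Qb) • z from rfl, ac_iter_smul, ac_iter_smul,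
        wg_smul, h0, mul_zero]
    obtain ⟨s, hs⟩ := par_field (itne hF P.rep_nonzero m) h3
    refine ⟨s, ?_, hs⟩
    rintro rfl
    rw [zero_smul] at hs
    exact itne hF P.rep_nonzero k hs
  · obtain ⟨E, e1, e2, e3, w, e4, c, e5, e6⟩ := h2
    refine ⟨E, e1, e2, e3, w, e4, a * c, mul_ne_zero a.ne_zero e5, ?_⟩
    rw [← ha, e6]
    funext l
    simp only [Units.smul_def, Pi.smul_apply, smul_eq_mul, mul_assoc]

/-- **From bounded degree to symmetric powers.** -/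
theorem SS_le {n : ℕ} (hn : 1 ≤ n) (K : IntermediateField ℚ Qb) [NumberField K]
    {F' : Fin 2 → Fin (d + 1) → Qb} {B : ℕ} (hnB : n ≤ B)
    (hF : ∀ v : Fin 2 → Qb, ac F' v = 0 → v = 0)
    (Φ : Fin (n + 1) → MvPolynomial (Fin (n + 1)) K)
    (hΦ : ∀ (p : Fin n → Fin 2 → Qb) (j : Fin (n + 1)),
      MvPolynomial.aeval (pt p) (Φ j) = pt (fun i => ac F' (p i)) j)
    {M : ℕ} (hM : (TT K F' B).encard ≤ (M : ℕ∞)) : (SS Φ).encard ≤ ((M ^ n : ℕ) : ℕ∞) := by
  classical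
  have hfin : (TT K F' B).Finite := Set.finite_of_encard_le_coe hM
  haveI : Fintype (TT K F' B) := hfin.fintype
  have hcard : Fintype.card (TT K F' B) ≤ M := by
    rw [← Set.coe_fintypeCard] at hM
    exact_mod_cast hM
  have hv : ∀ P : Projectivization K (Fin (n + 1) → K), (fun j => ((P.rep j : K) : Qb)) ≠ 0 := by
    intro P h
    apply P.rep_nonzero
    funext j
    have h1 : ((P.rep j : K) : Qb) = 0 := congrFun h j
    have h2 : P.rep j = 0 := by exact_mod_cast h1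
    exact h2
  choose p hp0 hp using fun P : Projectivization K (Fin (n + 1) → K) =>
    exists_pt hn (fun j => ((P.rep j : K) : Qb)) (hv P)
  have hmem : ∀ P ∈ SS Φ, ∀ i, Projectivization.mk Qb (p P i) (hp0 P i) ∈ TT K F' B := by
    intro P hP i
    obtain ⟨m, k, hmk, c, hc, h⟩ := hP
    refine mem_TT K hF (hp0 P i) (pre_pts K F' Φ hF hΦ (hp P) (hp0 P) hmk hc h i) ?_
    obtain ⟨E, e1, e2, e3, e4⟩ := deg_pts K hn P.rep_nonzero (hp P) (hp0 P) i
    exact ⟨E, e1, e2, e3.trans (Nat.mul_le_mul_right _ hnB), e4⟩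
  have hinj : ∀ P Q : Projectivization K (Fin (n + 1) → K),
      (∀ i, Projectivization.mk Qb (p P i) (hp0 P i) = Projectivization.mk Qb (p Q i) (hp0 Q i)) →
      P = Q := by
    intro P Q h
    have h1 : ∀ i, ∃ c : Qb, c • p Q i = p P i := fun i =>
      (Projectivization.mk_eq_mk_iff' Qb _ _ _ _).1 (h i)
    choose c hc using h1
    have h2 := pt_of_prop (p := p P) (q := p Q) (c := c) fun i => (hc i).symm
    rw [hp, hp] at h2
    obtain ⟨j, hj⟩ := Function.ne_iff.1 Q.rep_nonzero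
    have hj' : ((Q.rep j : K) : Qb) ≠ 0 := by
      intro h0
      exact hj (by exact_mod_cast h0)
    have h3 : (∏ i, c i) = ((P.rep j / Q.rep j : K) : Qb) := by
      have h4 := congrFun h2 j
      rw [Pi.smul_apply, smul_eq_mul] at h4
      push_cast
      rw [eq_div_iff hj']
      exact h4.symm
    rw [← P.mk_rep, ← Q.mk_rep, Projectivization.mk_eq_mk_iff']
    refine ⟨P.rep j / Q.rep j, ?_⟩
    funext l
    have h4 := congrFun h2 l
    rw [Pi.smul_apply, smul_eq_mul, h3] at h4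
    rw [Pi.smul_apply, smul_eq_mul]
    have h5 : (((P.rep l : K) : Qb)) = ((P.rep j / Q.rep j * Q.rep l : K) : Qb) := by
      rw [h4]
      push_cast
      ring
    exact_mod_cast h5.symm
  have h1 : Set.InjOn (fun P : Projectivization K (Fin (n + 1) → K) =>
      fun i => Projectivization.mk Qb (p P i) (hp0 P i)) (SS Φ) :=
    fun P _ Q _ h => hinj P Q fun i => congrFun h i
  rw [← h1.encard_image]
  have h2 : ((fun P : Projectivization K (Fin (n + 1) → K) =>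
      fun i => Projectivization.mk Qb (p P i) (hp0 P i)) '' SS Φ) ⊆
      ((Set.univ : Set (Fin n → TT K F' B)).image fun g i => (g i : Projectivization Qb _)) := by
    rintro _ ⟨P, hP, rfl⟩
    exact ⟨fun i => ⟨_, hmem P hP i⟩, Set.mem_univ _, rfl⟩
  refine (Set.encard_le_encard h2).trans ((Set.encard_image_le _ _).trans ?_)
  rw [Set.encard_univ, ENat.card_eq_coe_fintype_card, Fintype.card_fun, Fintype.card_fin]
  exact_mod_cast Nat.pow_le_pow_left hcard n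

/-- **From projective points to vectors.** -/
theorem hypB_of {D B M X : ℕ} {K : IntermediateField ℚ Qb} [NumberField K]
    {F : Fin 2 → Fin (d + 1) → K} (h1 : Module.finrank ℚ K ≤ D)
    (h2 : ∀ v : Fin 2 → Qb, ac (fun i j => (F i j : Qb)) v = 0 → v = 0)
    (h3 : mulHeight (fun p : Fin 2 × Fin (d + 1) => F p.1 p.2) ≤ X)
    (h4 : (M : ℕ∞) < (TT K (fun i j => (F i j : Qb)) B).encard) : HypB d D B M X K F := by
  classical
  refine ⟨h1, h2, h3, ?_⟩
  obtain ⟨t, hts, htc⟩ := Set.exists_subset_encard_eq (Order.add_one_le_of_lt h4)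
  have hfin : t.Finite := by
    apply Set.finite_of_encard_eq_coe (k := M + 1)
    rw [htc]
    norm_cast
  have hcard : hfin.toFinset.card = M + 1 := by
    have h1 := hfin.encard_eq_coe_toFinset_card
    rw [htc] at h1
    exact_mod_cast h1.symm
  have hch : ∀ P : Projectivization Qb (Fin 2 → Qb), ∃ w : Fin 2 → Qb, P ∈ t →
      (∃ c : Qb, c ≠ 0 ∧ P.rep = c • w) ∧ ∃ E : IntermediateField ℚ Qb, K ≤ E ∧
        FiniteDimensional ℚ E ∧ Module.finrank ℚ E ≤ B * Module.finrank ℚ K ∧ ∀ l, w l ∈ E := by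
    intro P
    by_cases hP : P ∈ t
    · obtain ⟨-, E, e1, e2, e3, w, e4, e5⟩ := hts hP
      exact ⟨w, fun _ => ⟨e5, E, e1, e2, e3, e4⟩⟩
    · exact ⟨0, fun h => absurd h hP⟩
  choose w hw using hch
  have hinj : ∀ P ∈ t, ∀ Q ∈ t, wg (w P) (w Q) = 0 → P = Q := by
    intro P hP Q hQ h0
    obtain ⟨⟨c, hc, hcP⟩, -⟩ := hw P hP
    obtain ⟨⟨c', hc', hcQ⟩, -⟩ := hw Q hQ
    have h5 : wg P.rep Q.rep = 0 := by
      rw [hcP, hcQ, wg_smul, h0, mul_zero]
    obtain ⟨r, hr⟩ := par_field P.rep_nonzero h5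
    rw [← P.mk_rep, ← Q.mk_rep, Projectivization.mk_eq_mk_iff']
    have hr0 : r ≠ 0 := by
      rintro rfl
      rw [zero_smul] at hr
      exact Q.rep_nonzero hr
    refine ⟨r⁻¹, ?_⟩
    rw [hr, smul_smul, inv_mul_cancel₀ hr0, one_smul]
  refine ⟨hfin.toFinset.image w, ?_, ?_, ?_⟩
  · rw [Finset.card_image_of_injOn, hcard]
    · omega
    · intro P hP Q hQ hPQ
      have hP' : P ∈ t := by simpa using hP
      have hQ' : Q ∈ t := by simpa using hQ
      refine hinj P hP' Q hQ' ?_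
      rw [hPQ, wg_self]
  · intro z hz
    obtain ⟨P, hP, rfl⟩ := Finset.mem_image.1 hz
    rw [hfin.mem_toFinset] at hP
    obtain ⟨⟨c, hc, hcP⟩, hE⟩ := hw P hP
    refine ⟨?_, ?_, hE⟩
    · intro h0
      rw [h0, smul_zero] at hcP
      exact P.rep_nonzero hcP
    · obtain ⟨⟨m, k, hmk, s, hs, hsk⟩, -⟩ := hts hP
      refine ⟨m, k, hmk, ?_⟩
      have h6 := wg_of_smul hsk
      rw [hcP, ac_iter_smul, ac_iter_smul, wg_smul] at h6
      exact (mul_eq_zero.1 h6).resolve_left (mul_ne_zero (pow_ne_zero _ hc) (pow_ne_zero _ hc))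
  · intro z hz z' hz' hne h0
    obtain ⟨P, hP, rfl⟩ := Finset.mem_image.1 hz
    obtain ⟨Q, hQ, rfl⟩ := Finset.mem_image.1 hz'
    rw [hfin.mem_toFinset] at hP hQ
    exact hne (by rw [hinj P hP Q hQ h0])

end Pool.Agent.R323.PN
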